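import Pool.Agent.Lib.MP_f146a9_al.DVB.SymGen

/-! The homomorphism from the Artin group of type B to the symmetric Burau matrices at t = -1. -/

namespace Pool.Agent.Lib.MP_f146a9_al.DV

private theorem altProd_map {G H : Type*} [Group G] [Group H] (f : G →* H) (m : ℕ) (a b : G) :
    f (altProd a b m) = altProd (f a) (f b) m := by
  induction m generalizing a b with
  | zero => exact map_one f
  | succ m ih =>
    change f (a * altProd b a m) = f a * altProd (f b) (f a) m
    rw [map_mul, ih]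

private theorem re {M : Type*} [Monoid M] {a b c d : M} (h : a * b = c * d) (x : M) :
    a * (b * x) = c * (d * x) := by
  rw [← mul_assoc, h, mul_assoc]

private theorem re3 {M : Type*} [Monoid M] {a b : M} (h : a * b * a = b * a * b) (x : M) :
    a * (b * (a * x)) = b * (a * (b * x)) := by
  rw [← mul_assoc, ← mul_assoc, h, mul_assoc, mul_assoc]

private theorem re3' {M : Type*} [Monoid M] {a b : M} (h : a * b * a = b * a * b) :
    a * (b * a) = b * (a * b) := by
  rw [← mul_assoc, h, mul_assoc]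

private theorem br2 {M : Type*} [Monoid M] {a b a' b' : M} (h1 : a * b = b * a)
    (h2 : a * b' = b' * a) (h3 : a' * b = b * a') (h4 : a' * b' = b' * a') :
    (a * a') * ((b * b') * 1) = (b * b') * ((a * a') * 1) := by
  rw [mul_one, mul_one]
  calc (a * a') * (b * b') = a * (a' * (b * b')) := by rw [mul_assoc]
    _ = a * (b * (a' * b')) := by rw [re h3]
    _ = b * (a * (a' * b')) := by rw [re h1]
    _ = b * (a * (b' * a')) := by rw [h4]
    _ = b * (b' * (a * a')) := by rw [re h2]
    _ = (b * b') * (a * a') := by rw [mul_assoc]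

private theorem br3 {M : Type*} [Monoid M] {a b a' b' : M} (h1 : a * b * a = b * a * b)
    (h2 : a' * b' * a' = b' * a' * b') (h3 : a * a' = a' * a) (h4 : b * b' = b' * b)
    (h5 : a * b' = b' * a) (h6 : a' * b = b * a') :
    (a * a') * ((b * b') * ((a * a') * 1)) = (b * b') * ((a * a') * ((b * b') * 1)) := by
  rw [mul_one, mul_one]
  calc (a * a') * ((b * b') * (a * a')) = a * (a' * (b * (b' * (a * a')))) := by
        simp only [mul_assoc]
    _ = a * (b * (a' * (b' * (a * a')))) := by rw [re h6]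
    _ = a * (b * (a' * (a * (b' * a')))) := by rw [re h5.symm]
    _ = a * (b * (a * (a' * (b' * a')))) := by rw [re h3.symm]
    _ = b * (a * (b * (a' * (b' * a')))) := by rw [re3 h1]
    _ = b * (a * (b * (b' * (a' * b')))) := by rw [re3' h2]
    _ = b * (a * (b' * (b * (a' * b')))) := by rw [re h4]
    _ = b * (a * (b' * (a' * (b * b')))) := by rw [re h6]
    _ = b * (b' * (a * (a' * (b * b')))) := by rw [re h5]
    _ = (b * b') * ((a * a') * (b * b')) := by simp only [mul_assoc]

private theorem br4 {M : Type*} [Monoid M] {a t a' : M} (h1 : a * t * a = t * a * t)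
    (h2 : a' * t * a' = t * a' * t) (h3 : a * a' = a' * a) :
    (a * a') * (t * ((a * a') * (t * 1))) = t * ((a * a') * (t * ((a * a') * 1))) := by
  rw [mul_one, mul_one]
  calc (a * a') * (t * ((a * a') * t)) = a * (a' * (t * (a * (a' * t)))) := by
        simp only [mul_assoc]
    _ = a * (a' * (t * (a' * (a * t)))) := by rw [re h3 t]
    _ = a * (t * (a' * (t * (a * t)))) := by rw [re3 h2]
    _ = a * (t * (a' * (a * (t * a)))) := by rw [re3' h1]
    _ = a * (t * (a * (a' * (t * a)))) := by rw [re h3.symm (t * a)]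
    _ = t * (a * (t * (a' * (t * a)))) := by rw [re3 h1]
    _ = t * (a * (a' * (t * (a' * a)))) := by rw [re3 h2]
    _ = t * (a * (a' * (t * (a * a')))) := by rw [h3]
    _ = t * ((a * a') * (t * (a * a'))) := by simp only [mul_assoc]

private theorem genB_zero {m : ℕ} (i : Fin (m + 1)) : genB i 0 = 1 := by
  unfold genB
  split_ifs with h
  · exact gen_zero _
  · rw [gen_zero, gen_zero, one_mul]

private theorem genB_mul {m : ℕ} (i : Fin (m + 1)) (k l : ℚ) : genB i k * genB i l = genB i (k + l) := by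
  unfold genB
  split_ifs with h
  · exact gen_mul _ k l
  · calc gen (na i) k * gen (Fin.rev (na i)) k * (gen (na i) l * gen (Fin.rev (na i)) l)
        = gen (na i) k * (gen (Fin.rev (na i)) k * (gen (na i) l * gen (Fin.rev (na i)) l)) := by
          rw [mul_assoc]
      _ = gen (na i) k * (gen (na i) l * (gen (Fin.rev (na i)) k * gen (Fin.rev (na i)) l)) := by
          rw [re (gen_comm' i h l k).symm]
      _ = (gen (na i) k * gen (na i) l) * (gen (Fin.rev (na i)) k * gen (Fin.rev (na i)) l) := by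
          rw [mul_assoc]
      _ = _ := by rw [gen_mul, gen_mul]

private def gu {m : ℕ} (i : Fin (m + 1)) : (Mat (2 * m + 1))ˣ where
  val := genB i 1
  inv := genB i (-1)
  val_inv := by rw [genB_mul, add_neg_cancel, genB_zero]
  inv_val := by rw [genB_mul, neg_add_cancel, genB_zero]

private theorem gu_zpow {m : ℕ} (i : Fin (m + 1)) (k : ℤ) :
    (((gu i) ^ k : (Mat (2 * m + 1))ˣ) : Mat (2 * m + 1)) = genB i k := by
  induction k using Int.induction_on with
  | zero =>
    rw [zpow_zero, Units.val_one, Int.cast_zero, genB_zero]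
  | succ k ih =>
    rw [zpow_add_one, Units.val_mul, ih]
    change genB i _ * genB i 1 = _
    rw [genB_mul]
    push_cast
    rfl
  | pred k ih =>
    rw [zpow_sub_one, Units.val_mul, ih]
    change genB i _ * genB i (-1) = _
    rw [genB_mul]
    push_cast
    rw [sub_eq_add_neg]

private theorem rev_val {m : ℕ} (i : Fin (m + 1)) : ((Fin.rev (na i) : Fin (2 * m + 1)) : ℕ) = 2 * m - i := by
  rw [Fin.val_rev]
  simp only [na]
  omega

private theorem genB_last {m : ℕ} (i : Fin (m + 1)) (h : i = Fin.last m) (k : ℚ) :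
    genB i k = gen (na i) k := if_pos h

private theorem genB_ne {m : ℕ} (i : Fin (m + 1)) (h : i ≠ Fin.last m) (k : ℚ) :
    genB i k = gen (na i) k * gen (Fin.rev (na i)) k := if_neg h

private theorem comm_aux {m : ℕ} {i j : Fin (2 * m + 1)} (h : (i : ℕ) ≠ j) (h1 : (j : ℕ) + 1 ≠ i)
    (h2 : (i : ℕ) + 1 ≠ j) : gen i 1 * gen j 1 = gen j 1 * gen i 1 :=
  gen_comm i j (fun e => h (by rw [e])) h1 h2

private theorem alt2 {m : ℕ} (i j : Fin (m + 1)) (hij : (i : ℕ) ≠ j) (h1 : (j : ℕ) + 1 ≠ i)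
    (h2 : (i : ℕ) + 1 ≠ j) :
    genB i 1 * (genB j 1 * 1) = genB j 1 * (genB i 1 * 1) := by
  have ri := rev_val i
  have rj := rev_val j
  have ni : ((na i : Fin (2 * m + 1)) : ℕ) = i := rfl
  have nj : ((na j : Fin (2 * m + 1)) : ℕ) = j := rfl
  have hi := i.is_lt
  have hj := j.is_lt
  have c1 : gen (na i) 1 * gen (na j) 1 = gen (na j) 1 * gen (na i) 1 :=
    comm_aux (by omega) (by omega) (by omega)
  have c2 : gen (na i) 1 * gen (Fin.rev (na j)) 1 = gen (Fin.rev (na j)) 1 * gen (na i) 1 :=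
    comm_aux (by omega) (by omega) (by omega)
  have c3 : gen (Fin.rev (na i)) 1 * gen (na j) 1 = gen (na j) 1 * gen (Fin.rev (na i)) 1 :=
    comm_aux (by omega) (by omega) (by omega)
  have c4 : gen (Fin.rev (na i)) 1 * gen (Fin.rev (na j)) 1 = gen (Fin.rev (na j)) 1 * gen (Fin.rev (na i)) 1 :=
    comm_aux (by omega) (by omega) (by omega)
  by_cases h3 : i = Fin.last m
  · have h4 : j ≠ Fin.last m := fun e => hij (by rw [h3, e])
    rw [genB_last i h3, genB_ne j h4, mul_one, mul_one, ← mul_assoc, c1, mul_assoc, c2, ← mul_assoc]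
  · by_cases h4 : j = Fin.last m
    · rw [genB_ne i h3, genB_last j h4, mul_one, mul_one, mul_assoc, c3, ← mul_assoc, c1, mul_assoc]
    · rw [genB_ne i h3, genB_ne j h4]
      exact br2 c1 c2 c3 c4

private theorem alt3 {m : ℕ} (i j : Fin (m + 1)) (h : (j : ℕ) + 1 = i ∨ (i : ℕ) + 1 = j)
    (hi : (i : ℕ) < m) (hj : (j : ℕ) < m) :
    genB i 1 * (genB j 1 * (genB i 1 * 1)) = genB j 1 * (genB i 1 * (genB j 1 * 1)) := by
  have ri := rev_val i
  have rj := rev_val j
  have ni : ((na i : Fin (2 * m + 1)) : ℕ) = i := rfl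
  have nj : ((na j : Fin (2 * m + 1)) : ℕ) = j := rfl
  have h3 : i ≠ Fin.last m := fun e => by rw [e, Fin.val_last] at hi; omega
  have h4 : j ≠ Fin.last m := fun e => by rw [e, Fin.val_last] at hj; omega
  rw [genB_ne i h3, genB_ne j h4]
  refine br3 (gen_braid _ _ (by omega)) (gen_braid _ _ (by omega)) (gen_comm' i h3 1 1)
    (gen_comm' j h4 1 1) (comm_aux (by omega) (by omega) (by omega))
    (comm_aux (by omega) (by omega) (by omega))

private theorem alt4 {m : ℕ} (i j : Fin (m + 1)) (h : (i : ℕ) + 1 = m) (hj : (j : ℕ) = m) :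
    genB i 1 * (genB j 1 * (genB i 1 * (genB j 1 * 1))) =
      genB j 1 * (genB i 1 * (genB j 1 * (genB i 1 * 1))) := by
  have ri := rev_val i
  have ni : ((na i : Fin (2 * m + 1)) : ℕ) = i := rfl
  have nj : ((na j : Fin (2 * m + 1)) : ℕ) = j := rfl
  have h3 : i ≠ Fin.last m := fun e => by rw [e, Fin.val_last] at h; omega
  have h4 : j = Fin.last m := Fin.ext hj
  rw [genB_ne i h3, genB_last j h4]
  exact br4 (gen_braid _ _ (by omega)) (gen_braid _ _ (by omega)) (gen_comm' i h3 1 1)

private theorem gu_alt {m : ℕ} (i j : Fin (m + 1)) :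
    altProd (gu i) (gu j) (CoxeterMatrix.B (m + 1) i j) =
      altProd (gu j) (gu i) (CoxeterMatrix.B (m + 1) i j) := by
  have h1 : CoxeterMatrix.B (m + 1) i j = if i = j then 1
      else (if (i : ℕ) = m + 1 - 1 ∧ (j : ℕ) = m + 1 - 2 ∨ (j : ℕ) = m + 1 - 1 ∧ (i : ℕ) = m + 1 - 2 then 4
        else (if (j : ℕ) + 1 = i ∨ (i : ℕ) + 1 = j then 3 else 2)) := rfl
  rw [h1]
  have hi := i.is_lt
  have hj := j.is_lt
  by_cases h2 : i = j
  · rw [h2]
  · have hv : (i : ℕ) ≠ j := fun e => h2 (Fin.ext e)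
    rw [if_neg h2]
    by_cases h4 : (i : ℕ) = m + 1 - 1 ∧ (j : ℕ) = m + 1 - 2 ∨ (j : ℕ) = m + 1 - 1 ∧ (i : ℕ) = m + 1 - 2
    · rw [if_pos h4]
      refine Units.ext ?_
      change genB i 1 * (genB j 1 * (genB i 1 * (genB j 1 * 1))) =
        genB j 1 * (genB i 1 * (genB j 1 * (genB i 1 * 1)))
      rcases h4 with ⟨h5, h6⟩ | ⟨h5, h6⟩
      · exact (alt4 j i (by omega) (by omega)).symm
      · exact alt4 i j (by omega) (by omega)
    · rw [if_neg h4]
      by_cases h3 : (j : ℕ) + 1 = i ∨ (i : ℕ) + 1 = j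
      · rw [if_pos h3]
        refine Units.ext ?_
        change genB i 1 * (genB j 1 * (genB i 1 * 1)) = genB j 1 * (genB i 1 * (genB j 1 * 1))
        exact alt3 i j h3 (by omega) (by omega)
      · rw [if_neg h3]
        refine Units.ext ?_
        change genB i 1 * (genB j 1 * 1) = genB j 1 * (genB i 1 * 1)
        exact alt2 i j hv (fun e => h3 (Or.inl e)) fun e => h3 (Or.inr e)

theorem exists_homB (m : ℕ) : ∃ ρ : ArtinGroup (CoxeterMatrix.B (m + 1)) →* (Mat (2 * m + 1))ˣ,
    ∀ (i : Fin (m + 1)) (k : ℤ),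
    ((ρ ((PresentedGroup.of i : ArtinGroup (CoxeterMatrix.B (m + 1))) ^ k) : (Mat (2 * m + 1))ˣ) :
      Mat (2 * m + 1)) = genB i k := by
  have h1 : ∀ r ∈ artinRels (CoxeterMatrix.B (m + 1)), FreeGroup.lift (gu (m := m)) r = 1 := by
    rintro r ⟨i, j, _, rfl⟩
    rw [map_mul, map_inv, altProd_map, altProd_map, FreeGroup.lift_apply_of, FreeGroup.lift_apply_of, gu_alt, mul_inv_cancel]
  refine ⟨PresentedGroup.toGroup h1, fun i k => ?_⟩
  rw [map_zpow, PresentedGroup.toGroup.of, gu_zpow]

end Pool.Agent.Lib.MP_f146a9_al.DV
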