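import Pool.Agent.Lib.MP_f146a9_al.DVB.PermFB

namespace Pool.Agent.Lib.MP_f146a9_al.DV

private theorem PLB_P {m : ℕ} (i : Fin (m + 1)) : (((na i).castSucc : Fin (2 * m + 1 + 1)) : ℕ) = i := rfl

private theorem PLB_Q {m : ℕ} (i : Fin (m + 1)) : (((na i).succ : Fin (2 * m + 1 + 1)) : ℕ) = i + 1 := rfl

private theorem PLB_val {m : ℕ} (i : Fin (m + 1)) (x : Fin (2 * m + 1 + 1)) :
    ((swB i x : Fin (2 * m + 1 + 1)) : ℕ) = if (x : ℕ) = i then (i : ℕ) + 1 else if (x : ℕ) = i + 1 then i
      else if (x : ℕ) = 2 * m - i then 2 * m + 1 - i else if (x : ℕ) = 2 * m + 1 - i then 2 * m - i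
      else x := by
  have hi := i.2
  have hx := x.2
  have r1 : (((Fin.rev (na i)).castSucc : Fin (2 * m + 1 + 1)) : ℕ) = 2 * m - i := by
    simp only [Fin.val_castSucc, Fin.val_rev, na]
    omega
  have r2 : (((Fin.rev (na i)).succ : Fin (2 * m + 1 + 1)) : ℕ) = 2 * m + 1 - i := by
    simp only [Fin.val_succ, Fin.val_rev, na]
    omega
  unfold swB
  by_cases h : i = Fin.last m
  · have h' : (i : ℕ) = m := by rw [h]; rfl
    rw [if_pos h, Equiv.swap_apply_def]
    simp only [Fin.ext_iff, PLB_P, PLB_Q]
    split_ifs <;> (try simp only [PLB_P, PLB_Q] at *) <;> omega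
  · have h' : (i : ℕ) ≠ m := fun e => h (Fin.ext e)
    rw [if_neg h, Equiv.Perm.mul_apply, Equiv.swap_apply_def, Equiv.swap_apply_def]
    simp only [Fin.ext_iff, PLB_P, PLB_Q, r1, r2]
    split_ifs <;> (try simp only [PLB_P, PLB_Q, r1, r2] at *) <;> omega

private theorem PLB_fin {m : ℕ} (g : Fin (2 * m + 1 + 1) → Fin (2 * m + 1 + 1))
    (hs : ∀ x, g (Fin.rev x) = Fin.rev (g x)) (i j : Fin (m + 1))
    (hadj : (j : ℕ) + 1 = i ∨ (i : ℕ) + 1 = j)
    (A1 : g (na i).castSucc < g (na i).succ) (A2 : g (na j).castSucc < g (na j).succ) :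
    g (swB j (na i).castSucc) < g (swB j (na i).succ) ∧
    g (swB i (swB j (na i).castSucc)) < g (swB i (swB j (na i).succ)) ∧
    ((i : ℕ) = m ∨ (j : ℕ) = m →
      g (swB j (swB i (swB j (na i).castSucc))) < g (swB j (swB i (swB j (na i).succ)))) := by
  have hi := i.2
  have hj := j.2
  have hr : ∀ x : Fin (2 * m + 1 + 1), ((Fin.rev x : Fin (2 * m + 1 + 1)) : ℕ) = 2 * m + 1 - x := by
    intro x
    rw [Fin.val_rev]
    omega
  rcases hadj with h | h
  · -- j + 1 = i
    have e1 : (na i).castSucc = (na j).succ := Fin.ext (by rw [PLB_P, PLB_Q]; omega)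
    have a1 : swB j (na i).castSucc = (na j).castSucc :=
      Fin.ext (by rw [PLB_val, PLB_P, PLB_P]; split_ifs <;> omega)
    by_cases him : (i : ℕ) = m
    · have a2 : swB j (na i).succ = Fin.rev (na j).castSucc :=
        Fin.ext (by rw [PLB_val, hr, PLB_Q, PLB_P]; split_ifs <;> omega)
      have a3 : swB i (na j).castSucc = (na j).castSucc :=
        Fin.ext (by rw [PLB_val, PLB_P]; split_ifs <;> omega)
      have a4 : swB i (Fin.rev (na j).castSucc) = Fin.rev (na j).castSucc :=
        Fin.ext (by rw [PLB_val, hr, PLB_P]; split_ifs <;> omega)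
      have a5 : swB j (na j).castSucc = (na i).castSucc :=
        Fin.ext (by rw [PLB_val, PLB_P, PLB_P]; split_ifs <;> omega)
      have a6 : swB j (Fin.rev (na j).castSucc) = (na i).succ :=
        Fin.ext (by rw [PLB_val, hr, PLB_P, PLB_Q]; split_ifs <;> omega)
      have e2 : (na i).succ = Fin.rev (na j).succ := Fin.ext (by rw [hr, PLB_Q, PLB_Q]; omega)
      have B2 : g (Fin.rev (na j).succ) < g (Fin.rev (na j).castSucc) := by
        rw [hs, hs]
        exact Fin.rev_lt_rev.2 A2
      have C : g (na j).castSucc < g (Fin.rev (na j).castSucc) := by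
        rw [e1] at A1
        rw [e2] at A1
        exact (A2.trans A1).trans B2
      rw [a1, a2, a3, a4, a5, a6]
      exact ⟨C, C, fun _ => A1⟩
    · have a2 : swB j (na i).succ = (na i).succ :=
        Fin.ext (by rw [PLB_val, PLB_Q]; split_ifs <;> omega)
      have a3 : swB i (na j).castSucc = (na j).castSucc :=
        Fin.ext (by rw [PLB_val, PLB_P]; split_ifs <;> omega)
      have a4 : swB i (na i).succ = (na j).succ :=
        Fin.ext (by rw [PLB_val, PLB_Q, PLB_Q]; split_ifs <;> omega)
      rw [a1, a2, a3, a4]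
      rw [e1] at A1
      exact ⟨A2.trans A1, A2, fun h' => by omega⟩
  · -- i + 1 = j
    have e1 : (na i).succ = (na j).castSucc := Fin.ext (by rw [PLB_P, PLB_Q]; omega)
    have a1 : swB j (na i).castSucc = (na i).castSucc :=
      Fin.ext (by rw [PLB_val, PLB_P]; split_ifs <;> omega)
    have a2 : swB j (na i).succ = (na j).succ :=
      Fin.ext (by rw [PLB_val, PLB_Q, PLB_Q]; split_ifs <;> omega)
    have a3 : swB i (na i).castSucc = (na j).castSucc :=
      Fin.ext (by rw [PLB_val, PLB_P, PLB_P]; split_ifs <;> omega)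
    by_cases hjm : (j : ℕ) = m
    · have a4 : swB i (na j).succ = Fin.rev (na i).castSucc :=
        Fin.ext (by rw [PLB_val, hr, PLB_Q, PLB_P]; split_ifs <;> omega)
      have a5 : swB j (na j).castSucc = (na j).succ :=
        Fin.ext (by rw [PLB_val, PLB_P, PLB_Q]; split_ifs <;> omega)
      have a6 : swB j (Fin.rev (na i).castSucc) = Fin.rev (na i).castSucc :=
        Fin.ext (by rw [PLB_val, hr, PLB_P]; split_ifs <;> omega)
      have e2 : (na j).succ = Fin.rev (na i).succ := Fin.ext (by rw [hr, PLB_Q, PLB_Q]; omega)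
      have B2 : g (Fin.rev (na i).succ) < g (Fin.rev (na i).castSucc) := by
        rw [hs, hs]
        exact Fin.rev_lt_rev.2 A1
      rw [a1, a2, a3, a4, a5, a6]
      rw [← e2] at B2
      rw [e1] at A1
      exact ⟨A1.trans A2, A2.trans B2, fun _ => B2⟩
    · have a4 : swB i (na j).succ = (na j).succ :=
        Fin.ext (by rw [PLB_val, PLB_Q]; split_ifs <;> omega)
      rw [a1, a2, a3, a4]
      rw [e1] at A1
      exact ⟨A1.trans A2, A2, fun h' => by omega⟩

private theorem PLB_M {m : ℕ} (i j : Fin (m + 1)) (hij : i ≠ j) :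
    CoxeterMatrix.B (m + 1) i j = if (i : ℕ) = m + 1 - 1 ∧ (j : ℕ) = m + 1 - 2 ∨
      (j : ℕ) = m + 1 - 1 ∧ (i : ℕ) = m + 1 - 2 then 4
      else (if (j : ℕ) + 1 = i ∨ (i : ℕ) + 1 = j then 3 else 2) := by
  have h : CoxeterMatrix.B (m + 1) i j = if i = j then 1 else
      (if (i : ℕ) = m + 1 - 1 ∧ (j : ℕ) = m + 1 - 2 ∨
      (j : ℕ) = m + 1 - 1 ∧ (i : ℕ) = m + 1 - 2 then 4
      else (if (j : ℕ) + 1 = i ∨ (i : ℕ) + 1 = j then 3 else 2)) := rfl
  rw [h, if_neg hij]

private theorem PLB_comm {m : ℕ} {W : Type*} [Group W] (cs : CoxeterSystem (CoxeterMatrix.B (m + 1)) W)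
    {i j : Fin (m + 1)} (hij : i ≠ j) (h1 : (j : ℕ) + 1 ≠ i) (h2 : (i : ℕ) + 1 ≠ j) :
    cs.simple i * cs.simple j = cs.simple j * cs.simple i := by
  have hijv : (i : ℕ) ≠ j := fun e => hij (Fin.ext e)
  have hM := PLB_M i j hij
  have hi := i.2
  have hj := j.2
  rw [if_neg (by omega), if_neg (by omega)] at hM
  have h := cs.simple_mul_simple_pow i j
  rw [hM, pow_two] at h
  have h3 := eq_inv_of_mul_eq_one_left h
  rwa [mul_inv_rev, cs.inv_simple, cs.inv_simple] at h3

private theorem PLB_braid3 {m : ℕ} {W : Type*} [Group W] (cs : CoxeterSystem (CoxeterMatrix.B (m + 1)) W)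
    {i j : Fin (m + 1)} (hij : (j : ℕ) + 1 = i ∨ (i : ℕ) + 1 = j) (hi : (i : ℕ) ≠ m) (hj : (j : ℕ) ≠ m) :
    cs.simple i * cs.simple j * cs.simple i = cs.simple j * cs.simple i * cs.simple j := by
  have hne : i ≠ j := by rintro rfl; omega
  have hM := PLB_M i j hne
  rw [if_neg (by omega), if_pos hij] at hM
  have h := cs.simple_mul_simple_pow i j
  rw [hM, pow_succ, pow_two] at h
  have h3 := eq_inv_of_mul_eq_one_left h
  rw [mul_inv_rev, cs.inv_simple, cs.inv_simple] at h3
  have h4 : cs.simple i * cs.simple j * cs.simple i =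
      cs.simple i * cs.simple j * (cs.simple i * cs.simple j) * cs.simple j := by
    rw [mul_assoc (cs.simple i * cs.simple j) (cs.simple i * cs.simple j) (cs.simple j),
      mul_assoc (cs.simple i) (cs.simple j) (cs.simple j), cs.simple_mul_simple_self, mul_one]
  rw [h4, h3]

private theorem PLB_braid4 {m : ℕ} {W : Type*} [Group W] (cs : CoxeterSystem (CoxeterMatrix.B (m + 1)) W)
    {i j : Fin (m + 1)} (hij : (j : ℕ) + 1 = i ∨ (i : ℕ) + 1 = j) (hm : (i : ℕ) = m ∨ (j : ℕ) = m) :
    cs.simple i * cs.simple j * (cs.simple i * cs.simple j) =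
      cs.simple j * cs.simple i * (cs.simple j * cs.simple i) := by
  have hne : i ≠ j := by rintro rfl; omega
  have hM := PLB_M i j hne
  have hi := i.2
  have hj := j.2
  rw [if_pos (by omega)] at hM
  have h := cs.simple_mul_simple_pow i j
  rw [hM, show (4 : ℕ) = 2 + 2 from rfl, pow_add] at h
  have h3 := eq_inv_of_mul_eq_one_left h
  rw [pow_two, mul_inv_rev, mul_inv_rev, cs.inv_simple, cs.inv_simple] at h3
  exact h3

private theorem PLB_inv {m : ℕ} {W : Type*} [Group W] (cs : CoxeterSystem (CoxeterMatrix.B (m + 1)) W)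
    (f : W →* Equiv.Perm (Fin (2 * m + 1 + 1))) (hf : ∀ i : Fin (m + 1), f (cs.simple i) = swB i)
    (j : Fin (m + 1)) (w : W) (x : Fin (2 * m + 1 + 1)) :
    (f (cs.simple j * w))⁻¹ x = (f w)⁻¹ (swB j x) := by
  have h : (swB j : Equiv.Perm (Fin (2 * m + 1 + 1)))⁻¹ = swB j := by
    rw [← hf, ← map_inv, cs.inv_simple]
  rw [map_mul, mul_inv_rev, Equiv.Perm.mul_apply, hf, h]

private theorem PLB_A {m : ℕ} {W : Type*} [Group W] (cs : CoxeterSystem (CoxeterMatrix.B (m + 1)) W)
    (f : W →* Equiv.Perm (Fin (2 * m + 1 + 1))) (hf : ∀ i : Fin (m + 1), f (cs.simple i) = swB i)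
    (N : ℕ) : ∀ (w : W) (i : Fin (m + 1)), cs.length w = N → cs.length w < cs.length (cs.simple i * w) →
    (f w)⁻¹ (na i).castSucc < (f w)⁻¹ (na i).succ := by
  induction N using Nat.strong_induction_on with
  | _ N ih =>
    intro w i hN hi
    by_cases h1 : w = 1
    · rw [h1, map_one, inv_one]
      exact Fin.castSucc_lt_succ
    obtain ⟨j, hj⟩ := cs.exists_leftDescent_of_ne_one h1
    have hj' : cs.length (cs.simple j * w) < cs.length w := hj
    have hij : i ≠ j := by
      rintro rfl
      omega
    have hijv : (i : ℕ) ≠ j := fun e => hij (Fin.ext e)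
    have hi2 := i.2
    have hj2 := j.2
    obtain ⟨w', hw'⟩ : ∃ w', w' = cs.simple j * w := ⟨_, rfl⟩
    have hw : w = cs.simple j * w' := by rw [hw', cs.simple_mul_simple_cancel_left]
    have hl' : cs.length w' + 1 = cs.length w := by
      rw [hw']
      rcases cs.length_simple_mul w j with h | h <;> omega
    have hjw' : cs.length w' < cs.length (cs.simple j * w') := by rw [← hw]; omega
    have A2 := ih (cs.length w') (by omega) w' j rfl hjw'
    have hsym : ∀ (u : W) (x : Fin (2 * m + 1 + 1)), (f u)⁻¹ (Fin.rev x) = Fin.rev ((f u)⁻¹ x) := by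
      intro u x
      rw [Equiv.Perm.inv_eq_iff_eq, symP_f cs f hf u]
      exact congrArg Fin.rev ((f u).apply_symm_apply x).symm
    have e0 : ∀ x, (f w)⁻¹ x = (f w')⁻¹ (swB j x) := by
      intro x
      rw [hw]
      exact PLB_inv cs f hf j w' x
    rw [e0, e0]
    by_cases hc : cs.length w' < cs.length (cs.simple i * w')
    · have A1 := ih (cs.length w') (by omega) w' i rfl hc
      by_cases nb : (j : ℕ) + 1 = i ∨ (i : ℕ) + 1 = j
      · exact (PLB_fin (fun x => (f w')⁻¹ x) (hsym w') i j nb A1 A2).1
      · have a1 : swB j (na i).castSucc = (na i).castSucc :=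
          Fin.ext (by rw [PLB_val, PLB_P]; split_ifs <;> omega)
        have a2 : swB j (na i).succ = (na i).succ :=
          Fin.ext (by rw [PLB_val, PLB_Q]; split_ifs <;> omega)
        rw [a1, a2]
        exact A1
    · obtain ⟨v, hv⟩ : ∃ v, v = cs.simple i * w' := ⟨_, rfl⟩
      have hw'v : w' = cs.simple i * v := by rw [hv, cs.simple_mul_simple_cancel_left]
      have hlv : cs.length v + 1 = cs.length w' := by
        rw [hv]
        rcases cs.length_simple_mul w' i with h | h <;> omega
      by_cases nb : (j : ℕ) + 1 = i ∨ (i : ℕ) + 1 = j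
      · have hiv : cs.length v < cs.length (cs.simple i * v) := by rw [← hw'v]; omega
        have B1 := ih (cs.length v) (by omega) v i rfl hiv
        have e1 : ∀ x, (f w')⁻¹ x = (f v)⁻¹ (swB i x) := by
          intro x
          rw [hw'v]
          exact PLB_inv cs f hf i v x
        by_cases hjv : cs.length v < cs.length (cs.simple j * v)
        · have B2 := ih (cs.length v) (by omega) v j rfl hjv
          rw [e1, e1]
          exact (PLB_fin (fun x => (f v)⁻¹ x) (hsym v) i j nb B1 B2).2.1
        · obtain ⟨t, ht⟩ : ∃ t, t = cs.simple j * v := ⟨_, rfl⟩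
          have hvt : v = cs.simple j * t := by rw [ht, cs.simple_mul_simple_cancel_left]
          have hlt : cs.length t + 1 = cs.length v := by
            rw [ht]
            rcases cs.length_simple_mul v j with h | h <;> omega
          by_cases hm : (i : ℕ) = m ∨ (j : ℕ) = m
          · have hjt : cs.length t < cs.length (cs.simple j * t) := by rw [← hvt]; omega
            have C2 := ih (cs.length t) (by omega) t j rfl hjt
            have hit : cs.length t < cs.length (cs.simple i * t) := by
              by_contra hcon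
              obtain ⟨r, hr⟩ : ∃ r, r = cs.simple i * t := ⟨_, rfl⟩
              have htr : t = cs.simple i * r := by rw [hr, cs.simple_mul_simple_cancel_left]
              have hlr : cs.length r + 1 = cs.length t := by
                rw [hr]
                rcases cs.length_simple_mul t i with h | h <;> omega
              have h3 : cs.simple i * w = cs.simple j * (cs.simple i * (cs.simple j * r)) := by
                calc cs.simple i * w = cs.simple i * cs.simple j * (cs.simple i * cs.simple j) *
                      (cs.simple i * r) := by rw [hw, hw'v, hvt, htr]; simp only [mul_assoc]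
                  _ = cs.simple j * cs.simple i * (cs.simple j * cs.simple i) * (cs.simple i * r) := by
                      rw [PLB_braid4 cs nb hm]
                  _ = cs.simple j * (cs.simple i * (cs.simple j * (cs.simple i * (cs.simple i * r)))) := by
                      simp only [mul_assoc]
                  _ = _ := by rw [cs.simple_mul_simple_cancel_left]
              have h4 : cs.length (cs.simple i * w) ≤ cs.length r + 3 := by
                rw [h3]
                rcases cs.length_simple_mul (cs.simple i * (cs.simple j * r)) j with h | h <;>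
                  rcases cs.length_simple_mul (cs.simple j * r) i with h' | h' <;>
                  rcases cs.length_simple_mul r j with h'' | h'' <;> omega
              omega
            have C1 := ih (cs.length t) (by omega) t i rfl hit
            have e2 : ∀ x, (f v)⁻¹ x = (f t)⁻¹ (swB j x) := by
              intro x
              rw [hvt]
              exact PLB_inv cs f hf j t x
            rw [e1, e1, e2, e2]
            exact (PLB_fin (fun x => (f t)⁻¹ x) (hsym t) i j nb C1 C2).2.2 hm
          · exfalso
            have h3 : cs.simple i * w = cs.simple j * (cs.simple i * t) := by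
              calc cs.simple i * w = cs.simple i * cs.simple j * cs.simple i * (cs.simple j * t) := by
                    rw [hw, hw'v, hvt]; simp only [mul_assoc]
                _ = cs.simple j * cs.simple i * cs.simple j * (cs.simple j * t) := by
                    rw [PLB_braid3 cs nb (fun e => hm (Or.inl e)) (fun e => hm (Or.inr e))]
                _ = cs.simple j * (cs.simple i * (cs.simple j * (cs.simple j * t))) := by
                    simp only [mul_assoc]
                _ = _ := by rw [cs.simple_mul_simple_cancel_left]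
            have h4 : cs.length (cs.simple i * w) ≤ cs.length t + 2 := by
              rw [h3]
              rcases cs.length_simple_mul (cs.simple i * t) j with h | h <;>
                rcases cs.length_simple_mul t i with h' | h' <;> omega
            omega
      · exfalso
        push Not at nb
        have h3 : cs.simple i * w = cs.simple j * v := by
          calc cs.simple i * w = cs.simple i * cs.simple j * (cs.simple i * v) := by
                rw [hw, hw'v]; simp only [mul_assoc]
            _ = cs.simple j * cs.simple i * (cs.simple i * v) := by rw [PLB_comm cs hij nb.1 nb.2]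
            _ = cs.simple j * (cs.simple i * (cs.simple i * v)) := by rw [mul_assoc]
            _ = _ := by rw [cs.simple_mul_simple_cancel_left]
        have h4 : cs.length (cs.simple i * w) ≤ cs.length v + 1 := by
          rw [h3]
          rcases cs.length_simple_mul v j with h | h <;> omega
        omega

theorem permB_len {m : ℕ} {W : Type*} [Group W] (cs : CoxeterSystem (CoxeterMatrix.B (m + 1)) W)
    (f : W →* Equiv.Perm (Fin (2 * m + 1 + 1))) (hf : ∀ i : Fin (m + 1), f (cs.simple i) = swB i)
    (i : Fin (m + 1)) (w : W) :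
    cs.length w < cs.length (cs.simple i * w) ↔ (f w)⁻¹ (na i).castSucc < (f w)⁻¹ (na i).succ := by
  refine ⟨PLB_A cs f hf _ w i rfl, fun h => ?_⟩
  by_contra hcon
  have h1 : cs.length (cs.simple i * w) < cs.length (cs.simple i * (cs.simple i * w)) := by
    rw [cs.simple_mul_simple_cancel_left]
    rcases cs.length_simple_mul w i with h' | h' <;> omega
  have h2 := PLB_A cs f hf _ _ i rfl h1
  have a1 : swB i (na i).castSucc = (na i).succ :=
    Fin.ext (by rw [PLB_val, PLB_P, PLB_Q]; split_ifs <;> omega)
  have a2 : swB i (na i).succ = (na i).castSucc :=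
    Fin.ext (by rw [PLB_val, PLB_P, PLB_Q]; split_ifs <;> omega)
  rw [PLB_inv cs f hf, PLB_inv cs f hf, a1, a2] at h2
  exact lt_asymm h h2

theorem permB_injective {m : ℕ} {W : Type*} [Group W] (cs : CoxeterSystem (CoxeterMatrix.B (m + 1)) W)
    (f : W →* Equiv.Perm (Fin (2 * m + 1 + 1))) (hf : ∀ i : Fin (m + 1), f (cs.simple i) = swB i) :
    Function.Injective f := by
  rw [injective_iff_map_eq_one]
  intro w hw
  by_contra h1
  obtain ⟨j, hj⟩ := cs.exists_leftDescent_of_ne_one h1
  have hj' : cs.length (cs.simple j * w) < cs.length w := hj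
  have h2 : ¬ cs.length w < cs.length (cs.simple j * w) := by omega
  rw [permB_len cs f hf, hw, inv_one] at h2
  exact h2 Fin.castSucc_lt_succ

end Pool.Agent.Lib.MP_f146a9_al.DV
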