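import Pool.Agent.Lib.MP_f146a9_al.DVB.Defs
import Pool.Agent.Lib.MP_f146a9_al.DV.Rel

/-! MP_f146a9_al. The generators of type B preserve the alternating form. -/

namespace Pool.Agent.Lib.MP_f146a9_al.DV

private def EB {n : ℕ} (i : Fin n) : Mat n := Matrix.vecMulVec (uv i) (fv i)

private theorem gen_EB {n : ℕ} (i : Fin n) (k : ℚ) : gen i k = 1 + k • EB i := rfl

private theorem dotB_uv {n : ℕ} (v : Fin (n + 1) → ℚ) (j : Fin n) :
    v ⬝ᵥ uv j = v j.castSucc + v j.succ := by
  have hne : j.castSucc ≠ j.succ := (Fin.castSucc_lt_succ).ne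
  have h1 : uv j = Pi.single j.castSucc 1 + Pi.single j.succ 1 := by
    funext a
    simp only [uv, Pi.add_apply, Pi.single_apply]
    by_cases ha : a = j.castSucc
    · subst ha
      simp [hne]
    · simp [ha]
  rw [h1, dotProduct_add, dotProduct_single, dotProduct_single, mul_one, mul_one]

private theorem dotB_eq {n : ℕ} (i j : Fin n) :
    fv i ⬝ᵥ uv j = (if (j : ℕ) = i then 0 else if (i : ℕ) + 1 = j then -1
      else if (j : ℕ) + 1 = i then 1 else 0) := by
  rw [dotB_uv]
  simp only [fv, Fin.ext_iff, Fin.val_castSucc, Fin.val_succ]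
  split_ifs <;> first | omega | norm_num

private theorem EEB {n : ℕ} (i j : Fin n) (hij : (i : ℕ) ≠ j) (h1 : (j : ℕ) + 1 ≠ i)
    (h2 : (i : ℕ) + 1 ≠ j) : EB i * EB j = 0 := by
  rw [EB, EB, Matrix.vecMulVec_mul_vecMulVec, Matrix.vecMulVec_smul, dotB_eq,
    if_neg (Ne.symm hij), if_neg h2, if_neg h1, zero_smul]

theorem gen_comm' {m : ℕ} (i : Fin (m + 1)) (hi : i ≠ Fin.last m) (k l : ℚ) :
    gen (na i) k * gen (Fin.rev (na i)) l = gen (Fin.rev (na i)) l * gen (na i) k := by
  have hi' : (i : ℕ) < m := by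
    have h1 := i.2
    have h2 : (i : ℕ) ≠ m := fun h => hi (Fin.ext h)
    omega
  have hn : ((na i : Fin (2 * m + 1)) : ℕ) = i := rfl
  have hr : ((Fin.rev (na i) : Fin (2 * m + 1)) : ℕ) = 2 * m - i := by
    rw [Fin.val_rev, hn]
    omega
  have e1 : EB (na i) * EB (Fin.rev (na i)) = 0 := EEB _ _ (by omega) (by omega) (by omega)
  have e2 : EB (Fin.rev (na i)) * EB (na i) = 0 := EEB _ _ (by omega) (by omega) (by omega)
  rw [gen_EB, gen_EB]
  simp only [add_mul, mul_add, one_mul, mul_one, Matrix.smul_mul, Matrix.mul_smul, e1, e2,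
    smul_zero, add_zero]
  abel

private theorem vK {m : ℕ} (j : Fin (2 * m + 1)) :
    Matrix.vecMul (fv (Fin.rev j)) (KK m) = ((-1 : ℚ) ^ ((Fin.rev j : Fin (2 * m + 1)) : ℕ)) • uv j := by
  funext b
  have h1 : Matrix.vecMul (fv (Fin.rev j)) (KK m) b =
      fv (Fin.rev j) (Fin.rev b) * (-1) ^ ((Fin.rev b : Fin (2 * m + 1 + 1)) : ℕ) := by
    rw [Matrix.vecMul, dotProduct, Finset.sum_eq_single (Fin.rev b)]
    · simp [KK]
    · intro a _ ha
      simp [KK, ha]
    · intro h
      exact absurd (Finset.mem_univ _) h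
  rw [h1, Pi.smul_apply, smul_eq_mul]
  have hj := j.2
  have hb := b.2
  have hrj : ((Fin.rev j : Fin (2 * m + 1)) : ℕ) = 2 * m - j := by
    rw [Fin.val_rev]; omega
  have hrb : ((Fin.rev b : Fin (2 * m + 1 + 1)) : ℕ) = 2 * m + 1 - b := by
    rw [Fin.val_rev]; omega
  simp only [fv, uv, Fin.ext_iff, Fin.val_castSucc, Fin.val_succ, hrj, hrb]
  by_cases c1 : (b : ℕ) = j
  · rw [if_neg (by omega), if_pos (by omega), if_pos c1]
    rw [show 2 * m + 1 - (b : ℕ) = (2 * m - j) + 1 by omega, pow_succ]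
    ring
  · by_cases c2 : (b : ℕ) = j + 1
    · rw [if_pos (by omega), if_neg c1, if_pos c2]
      rw [show 2 * m + 1 - (b : ℕ) = 2 * m - j by omega]
      ring
    · rw [if_neg (by omega), if_neg (by omega), if_neg c1, if_neg c2]
      ring

private theorem Kv {m : ℕ} (j : Fin (2 * m + 1)) :
    Matrix.mulVec (KK m) (fv j) =
      (-((-1 : ℚ) ^ ((Fin.rev j : Fin (2 * m + 1)) : ℕ))) • uv (Fin.rev j) := by
  funext a
  have h1 : Matrix.mulVec (KK m) (fv j) a = (-1) ^ (a : ℕ) * fv j (Fin.rev a) := by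
    rw [Matrix.mulVec, dotProduct, Finset.sum_eq_single (Fin.rev a)]
    · simp [KK]
    · intro b _ hb
      have : a ≠ Fin.rev b := by
        rintro rfl
        exact hb (Fin.rev_rev b).symm
      simp [KK, this]
    · intro h
      exact absurd (Finset.mem_univ _) h
  rw [h1, Pi.smul_apply, smul_eq_mul]
  have hj := j.2
  have ha := a.2
  have hrj : ((Fin.rev j : Fin (2 * m + 1)) : ℕ) = 2 * m - j := by
    rw [Fin.val_rev]; omega
  have hra : ((Fin.rev a : Fin (2 * m + 1 + 1)) : ℕ) = 2 * m + 1 - a := by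
    rw [Fin.val_rev]; omega
  simp only [fv, uv, Fin.ext_iff, Fin.val_castSucc, Fin.val_succ, hrj, hra]
  by_cases c1 : (a : ℕ) = 2 * m - j
  · rw [if_neg (by omega), if_pos (by omega), if_pos c1, c1]
    ring
  · by_cases c2 : (a : ℕ) = 2 * m - j + 1
    · rw [if_pos (by omega), if_neg c1, if_pos c2, c2, pow_succ]
      ring
    · rw [if_neg (by omega), if_neg (by omega), if_neg c1, if_neg c2]
      ring

private theorem genB_one {m : ℕ} (j : Fin (2 * m + 1)) (k : ℚ) :
    gen (Fin.rev j) k * KK m * (gen j k).transpose = KK m := by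
  have hT : (gen j k).transpose = 1 + k • Matrix.vecMulVec (fv j) (uv j) := by
    rw [gen, Matrix.transpose_add, Matrix.transpose_one, Matrix.transpose_smul,
      Matrix.transpose_vecMulVec]
  have e1 : Matrix.vecMulVec (uv (Fin.rev j)) (fv (Fin.rev j)) * KK m =
      ((-1 : ℚ) ^ ((Fin.rev j : Fin (2 * m + 1)) : ℕ)) • Matrix.vecMulVec (uv (Fin.rev j)) (uv j) := by
    rw [Matrix.vecMulVec_mul, vK, Matrix.vecMulVec_smul]
  have e2 : KK m * Matrix.vecMulVec (fv j) (uv j) =
      (-((-1 : ℚ) ^ ((Fin.rev j : Fin (2 * m + 1)) : ℕ))) •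
        Matrix.vecMulVec (uv (Fin.rev j)) (uv j) := by
    rw [Matrix.mul_vecMulVec, Kv, Matrix.smul_vecMulVec]
  have e3 : Matrix.vecMulVec (uv (Fin.rev j)) (uv j) * Matrix.vecMulVec (fv j) (uv j) = 0 := by
    rw [Matrix.vecMulVec_mul_vecMulVec, Matrix.vecMulVec_smul, dotProduct_comm, dotB_eq,
      if_pos rfl, zero_smul]
  rw [hT, gen, add_mul, one_mul, Matrix.smul_mul, e1, mul_add, mul_one, add_mul,
    Matrix.mul_smul, e2, Matrix.smul_mul, Matrix.smul_mul, Matrix.mul_smul, e3]
  simp only [smul_zero, add_zero, neg_smul, smul_neg]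
  abel

theorem genB_sym {m : ℕ} (i : Fin (m + 1)) (k : ℚ) :
    genB i k * KK m * (genB i k).transpose = KK m := by
  by_cases hi : i = Fin.last m
  · have hr : Fin.rev (na i) = na i := by
      rw [hi]
      apply Fin.ext
      rw [Fin.val_rev]
      change 2 * m + 1 - (m + 1) = m
      omega
    rw [genB, if_pos hi]
    have h := genB_one (na i) k
    rw [hr] at h
    exact h
  · have hc := gen_comm' i hi k k
    have h1 := genB_one (na i) k
    have h2 := genB_one (Fin.rev (na i)) k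
    rw [Fin.rev_rev] at h2
    rw [genB, if_neg hi, Matrix.transpose_mul]
    calc gen (na i) k * gen (Fin.rev (na i)) k * KK m *
          ((gen (Fin.rev (na i)) k).transpose * (gen (na i) k).transpose)
        = gen (Fin.rev (na i)) k * (gen (na i) k * KK m * (gen (Fin.rev (na i)) k).transpose) *
          (gen (na i) k).transpose := by
          rw [hc]
          simp only [mul_assoc]
      _ = KK m := by rw [h2, h1]

end Pool.Agent.Lib.MP_f146a9_al.DV
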