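import Pool.Agent.Lib.MP_f146a9_al.DVB.SymCell
import Pool.Agent.Lib.MP_f146a9_al.DVB.SymGen
import Pool.Agent.Lib.MP_f146a9_al.DV.Step

/-!
MP_f146a9_al. Multiplication by a generator of type B moves a symmetric cell by at most one step.
-/

namespace Pool.Agent.Lib.MP_f146a9_al.DV

private theorem rev_p {m : ℕ} (i : Fin (m + 1)) :
    Fin.rev (na i).castSucc = (Fin.rev (na i)).succ := by
  ext
  simp only [Fin.val_rev, Fin.val_castSucc, Fin.val_succ, na]
  have := i.isLt
  omega

private theorem rev_q {m : ℕ} (i : Fin (m + 1)) :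
    Fin.rev (na i).succ = (Fin.rev (na i)).castSucc := by
  ext
  simp only [Fin.val_rev, Fin.val_castSucc, Fin.val_succ, na]
  have := i.isLt
  omega

private theorem sym_inv {m : ℕ} {w : Equiv.Perm (Fin (2 * m + 1 + 1))} (hs : SymP w)
    (a : Fin (2 * m + 1 + 1)) : w⁻¹ (Fin.rev a) = Fin.rev (w⁻¹ a) := by
  have h1 := hs (w⁻¹ a)
  have h2 : w (w⁻¹ a) = a := w.apply_symm_apply a
  rw [h2] at h1
  rw [← h1]
  exact w.symm_apply_apply _

/-- the four points are distinct -/
private theorem four {m : ℕ} (i : Fin (m + 1)) (hi : i ≠ Fin.last m) :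
    (na i).castSucc ≠ (Fin.rev (na i)).castSucc ∧ (na i).castSucc ≠ (Fin.rev (na i)).succ ∧
    (na i).succ ≠ (Fin.rev (na i)).castSucc ∧ (na i).succ ≠ (Fin.rev (na i)).succ := by
  have h1 : (i : ℕ) < m := by
    have h2 := i.isLt
    have h3 : (i : ℕ) ≠ m := fun h => hi (Fin.ext h)
    omega
  refine ⟨fun h => ?_, fun h => ?_, fun h => ?_, fun h => ?_⟩ <;>
  · have := congrArg Fin.val h
    simp only [Fin.val_rev, Fin.val_castSucc, Fin.val_succ, na] at this
    omega

private theorem swap_inv_apply {n : ℕ} (a b c : Fin (n + 1)) (w : Equiv.Perm (Fin (n + 1)))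
    (h1 : c ≠ a) (h2 : c ≠ b) : (Equiv.swap a b * w)⁻¹ c = w⁻¹ c := by
  rw [mul_inv_rev, Equiv.swap_inv, Equiv.Perm.mul_apply, Equiv.swap_apply_of_ne_of_ne h1 h2]

theorem stepB_up {m : ℕ} (i : Fin (m + 1)) {k : ℚ} (hk : k ≠ 0) {x : Mat (2 * m + 1)}
    {w : Equiv.Perm (Fin (2 * m + 1 + 1))} (h : Cell x w) (hs : SymP w)
    (hw : w⁻¹ (na i).castSucc < w⁻¹ (na i).succ) : Cell (genB i k * x) (swB i * w) := by
  by_cases hi : i = Fin.last m
  · rw [genB, swB, if_pos hi, if_pos hi]
    exact step_up (na i) hk h hw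
  · obtain ⟨f1, f2, f3, f4⟩ := four i hi
    rw [genB, swB, if_neg hi, if_neg hi, mul_assoc, mul_assoc]
    have h1 : w⁻¹ (Fin.rev (na i)).castSucc < w⁻¹ (Fin.rev (na i)).succ := by
      rw [← rev_p, ← rev_q, sym_inv hs, sym_inv hs, Fin.rev_lt_rev]
      exact hw
    refine step_up (na i) hk (step_up (Fin.rev (na i)) hk h h1) ?_
    rw [swap_inv_apply _ _ _ _ f1 f2, swap_inv_apply _ _ _ _ f3 f4]
    exact hw

theorem stepB_down {m : ℕ} (i : Fin (m + 1)) (k : ℚ) {x : Mat (2 * m + 1)}
    {w : Equiv.Perm (Fin (2 * m + 1 + 1))} (h : Cell x w) (hs : SymP w)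
    (hx : x * KK m * x.transpose = KK m) (hw : w⁻¹ (na i).succ < w⁻¹ (na i).castSucc) :
    Cell (genB i k * x) w ∨ Cell (genB i k * x) (swB i * w) := by
  by_cases hi : i = Fin.last m
  · rw [genB, swB, if_pos hi, if_pos hi]
    exact step_down (na i) k h hw
  · obtain ⟨f1, f2, f3, f4⟩ := four i hi
    have hy : (genB i k * x) * KK m * (genB i k * x).transpose = KK m := by
      rw [Matrix.transpose_mul]
      calc genB i k * x * KK m * (x.transpose * (genB i k).transpose)
          = genB i k * (x * KK m * x.transpose) * (genB i k).transpose := by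
            simp only [mul_assoc]
        _ = KK m := by rw [hx, genB_sym]
    have hsym : ∀ v, Cell (genB i k * x) v → SymP v := fun v hv => cell_sym hv hy
    have hwp : w (w⁻¹ (na i).castSucc) = (na i).castSucc := w.apply_symm_apply _
    have hwr : w (Fin.rev (w⁻¹ (na i).castSucc)) = (Fin.rev (na i)).succ := by
      rw [hs, hwp, rev_p]
    have hne : (Fin.rev (na i)).castSucc ≠ (Fin.rev (na i)).succ :=
      (Fin.castSucc_lt_succ (i := Fin.rev (na i))).ne
    have n1 : ¬ SymP (Equiv.swap (na i).castSucc (na i).succ * w) := by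
      intro hv
      have h1 := hv (w⁻¹ (na i).castSucc)
      rw [Equiv.Perm.mul_apply, Equiv.Perm.mul_apply, hwr, hwp, Equiv.swap_apply_left,
        Equiv.swap_apply_of_ne_of_ne f2.symm f4.symm, rev_q] at h1
      exact hne h1.symm
    have n2 : ¬ SymP (Equiv.swap (Fin.rev (na i)).castSucc (Fin.rev (na i)).succ * w) := by
      intro hv
      have h1 := hv (w⁻¹ (na i).castSucc)
      rw [Equiv.Perm.mul_apply, Equiv.Perm.mul_apply, hwr, hwp, Equiv.swap_apply_right,
        Equiv.swap_apply_of_ne_of_ne f1 f2, rev_p] at h1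
      exact hne h1
    have e1 : genB i k * x = gen (na i) k * (gen (Fin.rev (na i)) k * x) := by
      rw [genB, if_neg hi, mul_assoc]
    have e2 : swB i * w = Equiv.swap (na i).castSucc (na i).succ *
        (Equiv.swap (Fin.rev (na i)).castSucc (Fin.rev (na i)).succ * w) := by
      rw [swB, if_neg hi, mul_assoc]
    rw [e2]
    rw [e1] at hsym ⊢
    have h1 : w⁻¹ (Fin.rev (na i)).succ < w⁻¹ (Fin.rev (na i)).castSucc := by
      rw [← rev_p, ← rev_q, sym_inv hs, sym_inv hs, Fin.rev_lt_rev]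
      exact hw
    rcases step_down (Fin.rev (na i)) k h h1 with hA | hB
    · rcases step_down (na i) k hA hw with hC | hC
      · exact Or.inl hC
      · exact absurd (hsym _ hC) n1
    · have h2 : (Equiv.swap (Fin.rev (na i)).castSucc (Fin.rev (na i)).succ * w)⁻¹ (na i).succ <
          (Equiv.swap (Fin.rev (na i)).castSucc (Fin.rev (na i)).succ * w)⁻¹ (na i).castSucc := by
        rw [swap_inv_apply _ _ _ _ f1 f2, swap_inv_apply _ _ _ _ f3 f4]
        exact hw
      rcases step_down (na i) k hB h2 with hC | hC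
      · exact absurd (hsym _ hC) n2
      · exact Or.inr hC

end Pool.Agent.Lib.MP_f146a9_al.DV
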