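import Pool.Agent.Lib.MP_f146a9_al.DV.Braid
import Pool.Agent.Lib.MP_f146a9_al.DVB.StepB
import Pool.Agent.Lib.MP_f146a9_al.DVB.HomB
import Pool.Agent.Lib.MP_f146a9_al.DVB.PermLB

/-!
MP_f146a9_al. The cells of the Artin groups of types A and B.
-/

namespace Pool.Agent.Lib.MP_f146a9_al.DV

open CoxeterSystem

theorem rho_sym {m : ℕ} (ρ : ArtinGroup (CoxeterMatrix.B (m + 1)) →* (Mat (2 * m + 1))ˣ)
    (hρ : ∀ (i : Fin (m + 1)) (k : ℤ),
      ((ρ ((PresentedGroup.of i : ArtinGroup (CoxeterMatrix.B (m + 1))) ^ k) : (Mat (2 * m + 1))ˣ) :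
        Mat (2 * m + 1)) = genB i k) (g : ArtinGroup (CoxeterMatrix.B (m + 1))) :
    ((ρ g : (Mat (2 * m + 1))ˣ) : Mat (2 * m + 1)) * KK m *
      ((ρ g : (Mat (2 * m + 1))ˣ) : Mat (2 * m + 1)).transpose = KK m := by
  have hg : g ∈ Subgroup.closure
      (Set.range (PresentedGroup.of : Fin (m + 1) → ArtinGroup (CoxeterMatrix.B (m + 1)))) := by
    rw [PresentedGroup.closure_range_of]
    exact Subgroup.mem_top g
  obtain ⟨l, hl, rfl⟩ := exists_list hg
  clear hg
  induction l with
  | nil => rw [List.prod_nil, map_one, Units.val_one, one_mul, Matrix.transpose_one, mul_one]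
  | cons y l ih =>
    have ih' := ih fun z hz => hl z (List.mem_cons_of_mem _ hz)
    obtain ⟨i, k, hk⟩ : ∃ (i : Fin (m + 1)) (k : ℤ),
        y = (PresentedGroup.of i : ArtinGroup (CoxeterMatrix.B (m + 1))) ^ k := by
      rcases hl y (by simp) with h | h
      · obtain ⟨i, h2⟩ := h
        exact ⟨i, 1, by rw [zpow_one]; exact h2.symm⟩
      · obtain ⟨i, h2⟩ := h
        refine ⟨i, -1, ?_⟩
        rw [zpow_neg_one, ← inv_inv y]
        exact congrArg _ h2.symm
    rw [List.prod_cons, map_mul, Units.val_mul, Matrix.transpose_mul, hk, hρ]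
    have h3 : ∀ a b c : Mat (2 * m + 1), b * KK m * c = KK m →
        a * b * KK m * (c * a.transpose) = a * KK m * a.transpose := by
      intro a b c h
      calc a * b * KK m * (c * a.transpose) = a * (b * KK m * c) * a.transpose := by
            simp only [Matrix.mul_assoc]
        _ = _ := by rw [h]
    rw [h3 _ _ _ ih']
    exact genB_sym i k

theorem exists_cellsB {m : ℕ} {W : Type*} [Group W] (cs : CoxeterSystem (CoxeterMatrix.B (m + 1)) W) :
    ∃ cell : ArtinGroup (CoxeterMatrix.B (m + 1)) → W → Prop, IsCells cs cell := by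
  obtain ⟨f, hf⟩ := exists_permB cs
  obtain ⟨ρ, hρ⟩ := exists_homB m
  have hlen := permB_len cs f hf
  have hinj := permB_injective cs f hf
  refine ⟨fun g w => Cell ((ρ g : (Mat (2 * m + 1))ˣ) : Mat (2 * m + 1)) (f w), ?_, ?_, ?_, ?_⟩
  · change Cell ((ρ 1 : (Mat (2 * m + 1))ˣ) : Mat (2 * m + 1)) (f 1)
    rw [map_one, map_one, Units.val_one]
    exact ⟨1, 1, ut_one, ut_one, by rw [pm_one, one_mul, one_mul]⟩
  · intro g w w' h h'
    exact hinj (cell_unique h h')
  · intro i k g w hk h hw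
    have h1 := stepB_up i (k := (k : ℚ)) (by exact_mod_cast hk) h (symP_f cs f hf w) ((hlen i w).1 hw)
    change Cell ((ρ (_ * g) : (Mat (2 * m + 1))ˣ) : Mat (2 * m + 1)) (f (_ * w))
    rw [map_mul, map_mul, Units.val_mul, hρ, hf]
    exact h1
  · intro i k g w h hw
    have h2 : (f w)⁻¹ (na i).succ < (f w)⁻¹ (na i).castSucc := by
      have h3 : ¬ (f w)⁻¹ (na i).castSucc < (f w)⁻¹ (na i).succ := by
        rw [← hlen i w]
        omega
      rcases lt_or_gt_of_ne (a := (f w)⁻¹ (na i).castSucc) (b := (f w)⁻¹ (na i).succ) (by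
        intro h4
        have h5 := (f w)⁻¹.injective h4
        exact absurd h5 (Fin.castSucc_lt_succ).ne) with h4 | h4
      · exact absurd h4 h3
      · exact h4
    rcases stepB_down i (k : ℚ) h (symP_f cs f hf w) (rho_sym ρ hρ g) h2 with h1 | h1
    · left
      change Cell ((ρ (_ * g) : (Mat (2 * m + 1))ˣ) : Mat (2 * m + 1)) (f w)
      rw [map_mul, Units.val_mul, hρ]
      exact h1
    · right
      change Cell ((ρ (_ * g) : (Mat (2 * m + 1))ˣ) : Mat (2 * m + 1)) (f (_ * w))
      rw [map_mul, map_mul, Units.val_mul, hρ, hf]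
      exact h1

/-- types A and B -/
theorem exists_cellsAB {n : ℕ} (M : CoxeterMatrix (Fin n))
    (hM : M = CoxeterMatrix.A n ∨ M = CoxeterMatrix.B n) {W : Type*} [Group W] (cs : CoxeterSystem M W) :
    ∃ cell : ArtinGroup M → W → Prop, IsCells cs cell := by
  rcases hM with rfl | rfl
  · exact exists_cells cs
  · cases n with
    | zero =>
      have h : CoxeterMatrix.B 0 = CoxeterMatrix.A 0 := by
        ext i
        exact i.elim0
      revert cs
      rw [h]
      intro cs
      exact exists_cells cs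
    | succ m => exact exists_cellsB cs

end Pool.Agent.Lib.MP_f146a9_al.DV
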