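import Pool.Agent.Lib.MP_f146a9_al.DV.Defs

/-!
MP_f146a9_al. Type B: the annular braid groups as symmetric braids with 2 m + 2 strands.
-/

namespace Pool.Agent.Lib.MP_f146a9_al.DV

/-- the generator of the braid group on `2 m + 2` strands of the same number -/
def na {m : ℕ} (i : Fin (m + 1)) : Fin (2 * m + 1) := ⟨i, by omega⟩

/-- the matrix of the generator `i` of type B -/
def genB {m : ℕ} (i : Fin (m + 1)) (k : ℚ) : Mat (2 * m + 1) :=
  if i = Fin.last m then gen (na i) k else gen (na i) k * gen (Fin.rev (na i)) k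

/-- the permutation of the generator `i` of type B -/
def swB {m : ℕ} (i : Fin (m + 1)) : Equiv.Perm (Fin (2 * m + 1 + 1)) :=
  if i = Fin.last m then Equiv.swap (na i).castSucc (na i).succ
  else Equiv.swap (na i).castSucc (na i).succ *
    Equiv.swap (Fin.rev (na i)).castSucc (Fin.rev (na i)).succ

/-- the alternating form -/
def KK (m : ℕ) : Mat (2 * m + 1) := Matrix.of fun a b => if a = Fin.rev b then (-1) ^ (a : ℕ) else 0

/-- symmetric permutations -/
def SymP {m : ℕ} (w : Equiv.Perm (Fin (2 * m + 1 + 1))) : Prop := ∀ a, w (Fin.rev a) = Fin.rev (w a)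

end Pool.Agent.Lib.MP_f146a9_al.DV
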