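import Pool.Agent.Lib.MP_f146a9_al.DVB.Defs

namespace Pool.Agent.Lib.MP_f146a9_al.DV

private def PFB_S {n : ℕ} (k : Fin n) : Equiv.Perm (Fin (n + 1)) :=
  Equiv.swap k.castSucc k.succ

private theorem PFB_S_sq {n : ℕ} (k : Fin n) : PFB_S k * PFB_S k = 1 := by
  unfold PFB_S
  rw [Equiv.swap_mul_self]

private theorem PFB_cube {α : Type*} [DecidableEq α] {a b c : α} (hab : a ≠ b) (hbc : b ≠ c)
    (hac : a ≠ c) : (Equiv.swap a b * Equiv.swap b c) ^ 3 = 1 := by
  ext x
  simp only [pow_succ, pow_zero, one_mul, Equiv.Perm.mul_apply, Equiv.Perm.one_apply,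
    Equiv.swap_apply_def]
  by_cases ha : x = a
  · subst ha
    simp [hab, hac, hab.symm, hbc.symm, hac.symm]
  · by_cases hb : x = b
    · subst hb
      simp [hab, hac, hab.symm, hbc.symm, hac.symm]
    · by_cases hc : x = c
      · subst hc
        simp [hab, hac, hab.symm, hbc.symm, hac.symm]
      · simp [ha, hb, hc]

private theorem PFB_four {α : Type*} [DecidableEq α] {a b c d : α} (hab : a ≠ b) (hac : a ≠ c)
    (had : a ≠ d) (hbc : b ≠ c) (hbd : b ≠ d) (hcd : c ≠ d) :
    (Equiv.swap b c * (Equiv.swap a b * Equiv.swap c d)) ^ 4 = 1 := by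
  ext x
  simp only [pow_succ, pow_zero, one_mul, Equiv.Perm.mul_apply, Equiv.Perm.one_apply,
    Equiv.swap_apply_def]
  by_cases ha : x = a
  · subst ha
    simp [hab, hac, had, hbc, hbd, hab.symm, hac.symm, had.symm, hbc.symm, hbd.symm, hcd.symm]
  · by_cases hb : x = b
    · subst hb
      simp [hab, hac, had, hbc, hbd, hab.symm, hac.symm, had.symm, hbc.symm, hbd.symm,
        hcd.symm]
    · by_cases hc : x = c
      · subst hc
        simp [hab, hac, had, hbc, hbd, hab.symm, hac.symm, had.symm, hbc.symm, hbd.symm,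
          hcd.symm]
      · by_cases hd : x = d
        · subst hd
          simp [hab, hac, had, hbc, hbd, hab.symm, hac.symm, had.symm, hbc.symm, hbd.symm,
            hcd.symm]
        · simp [ha, hb, hc, hd]

private theorem PFB_S_comm {n : ℕ} (k l : Fin n) (h : (k : ℕ) + 1 < l ∨ (l : ℕ) + 1 < k) :
    Commute (PFB_S k) (PFB_S l) := by
  apply Equiv.Perm.Disjoint.commute
  intro x
  unfold PFB_S
  by_cases hx : x = k.castSucc ∨ x = k.succ
  · right
    apply Equiv.swap_apply_of_ne_of_ne
    · rcases hx with rfl | rfl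
      · intro h
        have := congrArg Fin.val h
        simp at this
        omega
      · intro h
        have := congrArg Fin.val h
        simp at this
        omega
    · rcases hx with rfl | rfl
      · intro h
        have := congrArg Fin.val h
        simp at this
        omega
      · intro h
        have := congrArg Fin.val h
        simp at this
        omega
  · push Not at hx
    left
    exact Equiv.swap_apply_of_ne_of_ne hx.1 hx.2

private theorem PFB_S_cube {n : ℕ} (k l : Fin n) (h : (l : ℕ) + 1 = k ∨ (k : ℕ) + 1 = l) :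
    (PFB_S k * PFB_S l) ^ 3 = 1 := by
  unfold PFB_S
  rcases h with hn | hn
  · have e1 : k.castSucc = l.succ := Fin.ext (by simp; omega)
    have h1 : (Equiv.swap k.castSucc k.succ : Equiv.Perm (Fin (n + 1))) =
        Equiv.swap k.succ l.succ := by rw [e1, Equiv.swap_comm]
    have h2 : (Equiv.swap l.castSucc l.succ : Equiv.Perm (Fin (n + 1))) =
        Equiv.swap l.succ l.castSucc := by rw [Equiv.swap_comm]
    rw [h1, h2]
    apply PFB_cube
    · intro h
      have := congrArg Fin.val h
      simp at this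
      omega
    · intro h
      have := congrArg Fin.val h
      simp at this
    · intro h
      have := congrArg Fin.val h
      simp at this
      omega
  · have e1 : k.succ = l.castSucc := Fin.ext (by simp; omega)
    rw [e1]
    apply PFB_cube
    · intro h
      have := congrArg Fin.val h
      simp at this
      omega
    · intro h
      have := congrArg Fin.val h
      simp at this
    · intro h
      have := congrArg Fin.val h
      simp at this
      omega

private theorem PFB_S_four {n : ℕ} (k l r : Fin n) (h : (l : ℕ) + 1 = k) (h' : (k : ℕ) + 1 = r) :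
    (PFB_S k * (PFB_S l * PFB_S r)) ^ 4 = 1 := by
  unfold PFB_S
  have e1 : k.castSucc = l.succ := Fin.ext (by simp; omega)
  have e2 : k.succ = r.castSucc := Fin.ext (by simp; omega)
  rw [e1, e2]
  apply PFB_four
  all_goals
    intro h
    have := congrArg Fin.val h
    simp at this
    try omega

private theorem PFB_swB_last {m : ℕ} {i : Fin (m + 1)} (h : (i : ℕ) = m) :
    swB i = PFB_S (na i) := by
  unfold swB PFB_S
  rw [if_pos (Fin.ext h)]

private theorem PFB_swB_lt {m : ℕ} {i : Fin (m + 1)} (h : (i : ℕ) < m) :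
    swB i = PFB_S (na i) * PFB_S (Fin.rev (na i)) := by
  unfold swB PFB_S
  rw [if_neg]
  intro h1
  rw [h1] at h
  simp at h

private theorem PFB_val_na {m : ℕ} (i : Fin (m + 1)) : ((na i : Fin (2 * m + 1)) : ℕ) = i := rfl

private theorem PFB_val_rev {m : ℕ} (i : Fin (m + 1)) :
    ((Fin.rev (na i) : Fin (2 * m + 1)) : ℕ) = 2 * m - i := by
  rw [Fin.val_rev, PFB_val_na]
  omega

private theorem PFB_swB_sq {m : ℕ} (i : Fin (m + 1)) : swB i * swB i = 1 := by
  rcases lt_or_eq_of_le (Nat.lt_succ_iff.mp i.isLt) with h | h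
  · rw [PFB_swB_lt h]
    have hc : Commute (PFB_S (na i)) (PFB_S (Fin.rev (na i))) := by
      apply PFB_S_comm
      left
      rw [PFB_val_na, PFB_val_rev]
      omega
    rw [← pow_two, hc.mul_pow, pow_two, pow_two, PFB_S_sq, PFB_S_sq, one_mul]
  · rw [PFB_swB_last h, PFB_S_sq]

private theorem PFB_sq_of_comm {G : Type*} [Group G] {x y : G} (hx : x * x = 1) (hy : y * y = 1)
    (h : Commute x y) : (x * y) ^ 2 = 1 := by
  rw [h.mul_pow, pow_two, pow_two, hx, hy, one_mul]

private theorem PFB_inv {G : Type*} [Group G] {x y : G} {n : ℕ} (hx : x * x = 1) (hy : y * y = 1)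
    (h : (x * y) ^ n = 1) : (y * x) ^ n = 1 := by
  have hx' : x⁻¹ = x := inv_eq_of_mul_eq_one_right hx
  have hy' : y⁻¹ = y := inv_eq_of_mul_eq_one_right hy
  have e : y * x = (x * y)⁻¹ := by rw [mul_inv_rev, hx', hy']
  rw [e, inv_pow, h, inv_one]

/-- far nodes commute -/
private theorem PFB_far {m : ℕ} (i j : Fin (m + 1)) (h : (i : ℕ) + 1 < j) :
    Commute (swB i) (swB j) := by
  have hj := j.isLt
  have hi : (i : ℕ) < m := by omega
  rw [PFB_swB_lt hi]
  rcases lt_or_eq_of_le (Nat.lt_succ_iff.mp j.isLt) with h' | h'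
  · rw [PFB_swB_lt h']
    apply Commute.mul_left <;> apply Commute.mul_right <;> apply PFB_S_comm <;>
      simp only [PFB_val_na, PFB_val_rev] <;> omega
  · rw [PFB_swB_last h']
    apply Commute.mul_left <;> apply PFB_S_comm <;>
      simp only [PFB_val_na, PFB_val_rev] <;> omega

/-- neighbouring nodes -/
private theorem PFB_near {m : ℕ} (i j : Fin (m + 1)) (h : (i : ℕ) + 1 = j) (hj : (j : ℕ) < m) :
    (swB i * swB j) ^ 3 = 1 := by
  have hi : (i : ℕ) < m := by omega
  rw [PFB_swB_lt hi, PFB_swB_lt hj]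
  have c1 : Commute (PFB_S (Fin.rev (na i))) (PFB_S (na j)) := by
    apply PFB_S_comm
    simp only [PFB_val_na, PFB_val_rev]
    omega
  have e : PFB_S (na i) * PFB_S (Fin.rev (na i)) * (PFB_S (na j) * PFB_S (Fin.rev (na j))) =
      (PFB_S (na i) * PFB_S (na j)) * (PFB_S (Fin.rev (na i)) * PFB_S (Fin.rev (na j))) := by
    rw [mul_assoc, ← mul_assoc (PFB_S (Fin.rev (na i))), c1.eq, mul_assoc, ← mul_assoc,
      ← mul_assoc, mul_assoc]
  have c2 : Commute (PFB_S (na i) * PFB_S (na j))
      (PFB_S (Fin.rev (na i)) * PFB_S (Fin.rev (na j))) := by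
    apply Commute.mul_left <;> apply Commute.mul_right <;> apply PFB_S_comm <;>
      simp only [PFB_val_na, PFB_val_rev] <;> omega
  rw [e, c2.mul_pow, PFB_S_cube, PFB_S_cube, one_mul]
  · simp only [PFB_val_rev]
    omega
  · simp only [PFB_val_na]
    omega

private theorem PFB_end {m : ℕ} (i j : Fin (m + 1)) (hi : (i : ℕ) = m) (hj : (j : ℕ) + 1 = m) :
    (swB i * swB j) ^ 4 = 1 := by
  rw [PFB_swB_last hi, PFB_swB_lt (by omega)]
  apply PFB_S_four
  · simp only [PFB_val_na]
    omega
  · simp only [PFB_val_na, PFB_val_rev]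
    omega

theorem exists_permB {m : ℕ} {W : Type*} [Group W] (cs : CoxeterSystem (CoxeterMatrix.B (m + 1)) W) :
    ∃ f : W →* Equiv.Perm (Fin (2 * m + 1 + 1)), ∀ i : Fin (m + 1), f (cs.simple i) = swB i := by
  have hf : (CoxeterMatrix.B (m + 1)).IsLiftable (fun i : Fin (m + 1) => swB i) := by
    intro i j
    have hM : (CoxeterMatrix.B (m + 1)) i j = if i = j then 1
      else (if (i : ℕ) = m + 1 - 1 ∧ (j : ℕ) = m + 1 - 2 ∨ (j : ℕ) = m + 1 - 1 ∧ (i : ℕ) = m + 1 - 2
        then 4 else (if (j : ℕ) + 1 = i ∨ (i : ℕ) + 1 = j then 3 else 2)) := rfl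
    rw [hM]
    show (swB i * swB j) ^ _ = 1
    have hi := i.isLt
    have hj := j.isLt
    by_cases hij : i = j
    · subst hij
      rw [if_pos rfl, pow_one, PFB_swB_sq]
    · have hne : (i : ℕ) ≠ j := fun h => hij (Fin.ext h)
      rw [if_neg hij]
      split_ifs with h1 h2
      · rcases h1 with h1 | h1
        · exact PFB_end i j (by omega) (by omega)
        · exact PFB_inv (PFB_swB_sq j) (PFB_swB_sq i) (PFB_end j i (by omega) (by omega))
      · rcases h2 with h2 | h2
        · exact PFB_inv (PFB_swB_sq j) (PFB_swB_sq i) (PFB_near j i h2 (by omega))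
        · exact PFB_near i j h2 (by omega)
      · apply PFB_sq_of_comm (PFB_swB_sq i) (PFB_swB_sq j)
        rcases lt_or_gt_of_ne hne with h | h
        · exact PFB_far i j (by omega)
        · exact (PFB_far j i (by omega)).symm
  exact ⟨cs.lift ⟨_, hf⟩, fun i => cs.lift_apply_simple hf i⟩

private theorem PFB_swap_rev {n : ℕ} (x y a : Fin n) :
    Equiv.swap x y (Fin.rev a) = Fin.rev (Equiv.swap (Fin.rev x) (Fin.rev y) a) := by
  simp only [Equiv.swap_apply_def, Fin.rev_eq_iff]
  split_ifs <;> simp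

private theorem PFB_S_rev {n : ℕ} (k : Fin n) (a : Fin (n + 1)) :
    PFB_S k (Fin.rev a) = Fin.rev (PFB_S (Fin.rev k) a) := by
  unfold PFB_S
  rw [PFB_swap_rev, Fin.rev_castSucc, Fin.rev_succ, Equiv.swap_comm]

private theorem PFB_symP_swB {m : ℕ} (i : Fin (m + 1)) : SymP (swB i) := by
  intro a
  rcases lt_or_eq_of_le (Nat.lt_succ_iff.mp i.isLt) with h | h
  · have hc : Commute (PFB_S (na i)) (PFB_S (Fin.rev (na i))) := by
      apply PFB_S_comm
      left
      rw [PFB_val_na, PFB_val_rev]
      omega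
    rw [PFB_swB_lt h, Equiv.Perm.mul_apply, PFB_S_rev, PFB_S_rev, Fin.rev_rev,
      ← Equiv.Perm.mul_apply, ← hc.eq]
  · have e : Fin.rev (na i) = na i := by
      apply Fin.ext
      rw [PFB_val_rev, PFB_val_na]
      omega
    rw [PFB_swB_last h, PFB_S_rev, e]

theorem symP_f {m : ℕ} {W : Type*} [Group W] (cs : CoxeterSystem (CoxeterMatrix.B (m + 1)) W)
    (f : W →* Equiv.Perm (Fin (2 * m + 1 + 1))) (hf : ∀ i : Fin (m + 1), f (cs.simple i) = swB i) (w : W) :
    SymP (f w) := by
  induction w using cs.simple_induction_left with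
  | one =>
    intro a
    rw [map_one]
    rfl
  | mul_simple_left w i ih =>
    intro a
    rw [map_mul, hf, Equiv.Perm.mul_apply, Equiv.Perm.mul_apply, ih a, PFB_symP_swB]

end Pool.Agent.Lib.MP_f146a9_al.DV
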