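import Pool.Agent.Lib.MP_f146a9_al.DVB.Defs
import Pool.Agent.Lib.MP_f146a9_al.DV.Uniq

/-! Cells of matrices which preserve the alternating form are symmetric: with the anti-automorphism
`Ps x = K xᵀ K⁻¹` one has `x * Ps x = 1`, `Ps` preserves upper triangular matrices, and `Ps (pm w)` is, up to
signs, the matrix of the inverse of `rev w rev`. -/

namespace Pool.Agent.Lib.MP_f146a9_al.DV

private def Ps {m : ℕ} (M : Mat (2 * m + 1)) : Mat (2 * m + 1) :=
  Matrix.of fun a d => (-1) ^ (a : ℕ) * (-1) ^ (d : ℕ) * M (Fin.rev d) (Fin.rev a)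

private theorem ps_apply {m : ℕ} (M : Mat (2 * m + 1)) (a d : Fin (2 * m + 1 + 1)) :
    Ps M a d = (-1) ^ (a : ℕ) * (-1) ^ (d : ℕ) * M (Fin.rev d) (Fin.rev a) := rfl

private theorem sg_sq (k : ℕ) : ((-1 : ℚ) ^ k) * (-1) ^ k = 1 := by
  rw [← mul_pow]
  norm_num

private theorem sum_rev {n : ℕ} (f : Fin (n + 1) → ℚ) : ∑ k, f (Fin.rev k) = ∑ k, f k :=
  Equiv.sum_comp Fin.revPerm f

private theorem ps_mul {m : ℕ} (M N : Mat (2 * m + 1)) : Ps (M * N) = Ps N * Ps M := by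
  ext a d
  rw [ps_apply, Matrix.mul_apply, Matrix.mul_apply, Finset.mul_sum, ← sum_rev]
  apply Finset.sum_congr rfl
  intro k _
  rw [ps_apply, ps_apply]
  linear_combination (-(-1 : ℚ) ^ (a : ℕ) * (-1) ^ (d : ℕ) * M (Fin.rev d) (Fin.rev k) *
    N (Fin.rev k) (Fin.rev a)) * sg_sq k

private theorem ps_one {m : ℕ} : Ps (1 : Mat (2 * m + 1)) = 1 := by
  ext a d
  rw [ps_apply]
  by_cases h : a = d
  · subst h
    rw [Matrix.one_apply_eq, Matrix.one_apply_eq, mul_one, sg_sq]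
  · rw [Matrix.one_apply_ne h, Matrix.one_apply_ne (fun h' => h (Fin.rev_injective h').symm), mul_zero]

private theorem mulK {m : ℕ} (x : Mat (2 * m + 1)) (a k : Fin (2 * m + 1 + 1)) :
    (x * KK m) a k = x a (Fin.rev k) * (-1) ^ ((Fin.rev k : Fin (2 * m + 1 + 1)) : ℕ) := by
  rw [Matrix.mul_apply, Finset.sum_eq_single (Fin.rev k)]
  · simp only [KK, Matrix.of_apply, if_true]
  · intro b _ hb
    simp only [KK, Matrix.of_apply, if_neg hb, mul_zero]
  · intro h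
    exact absurd (Finset.mem_univ _) h

private theorem mul_ps {m : ℕ} {x : Mat (2 * m + 1)} (hx : x * KK m * x.transpose = KK m) :
    x * Ps x = 1 := by
  ext a d
  have h1 : (x * KK m * x.transpose) a (Fin.rev d) = KK m a (Fin.rev d) := by rw [hx]
  rw [Matrix.mul_apply, ← sum_rev] at h1
  have h2 : ∑ k, x a k * (-1) ^ (k : ℕ) * x (Fin.rev d) (Fin.rev k) = KK m a (Fin.rev d) := by
    rw [← h1]
    apply Finset.sum_congr rfl
    intro k _
    rw [mulK, Matrix.transpose_apply, Fin.rev_rev]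
  have h3 : (x * Ps x) a d = (-1) ^ (d : ℕ) * KK m a (Fin.rev d) := by
    rw [← h2, Matrix.mul_apply, Finset.mul_sum]
    apply Finset.sum_congr rfl
    intro k _
    rw [ps_apply]
    ring
  rw [h3]
  simp only [KK, Matrix.of_apply, Fin.rev_rev]
  by_cases h : a = d
  · subst h
    rw [if_pos rfl, Matrix.one_apply_eq, sg_sq]
  · rw [if_neg h, Matrix.one_apply_ne h, mul_zero]

private theorem ut_ps {m : ℕ} {b : Mat (2 * m + 1)} (hb : UT b) : UT (Ps b) := by
  obtain ⟨c, -, h1, -⟩ := ut_inv hb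
  refine ⟨fun a d h => ?_, ?_⟩
  · rw [ps_apply, hb.1 _ _ (Fin.rev_lt_rev.2 h), mul_zero]
  · have h2 : Ps c * Ps b = 1 := by rw [← ps_mul, h1, ps_one]
    have h3 : (Ps b).det * (Ps c).det = 1 := by
      rw [mul_comm, ← Matrix.det_mul, h2, Matrix.det_one]
    exact IsUnit.of_mul_eq_one _ h3

private def Dg (m : ℕ) : Mat (2 * m + 1) := Matrix.diagonal fun a => (-1) ^ (a : ℕ)

private theorem dg_dg (m : ℕ) : Dg m * Dg m = 1 := by
  rw [Dg, Matrix.diagonal_mul_diagonal, ← Matrix.diagonal_one]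
  congr 1
  funext a
  exact sg_sq a

private theorem ut_dg (m : ℕ) : UT (Dg m) := by
  refine ⟨fun a c h => Matrix.diagonal_apply_ne _ h.ne', ?_⟩
  have h3 : (Dg m).det * (Dg m).det = 1 := by
    rw [← Matrix.det_mul, dg_dg, Matrix.det_one]
  exact IsUnit.of_mul_eq_one _ h3

private theorem ps_pm {m : ℕ} (w : Equiv.Perm (Fin (2 * m + 1 + 1))) :
    Ps (pm w) = Dg m * pm (Fin.revPerm * w * Fin.revPerm)⁻¹ * Dg m := by
  ext a d
  rw [ps_apply, Dg, Matrix.mul_diagonal, Matrix.diagonal_mul]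
  obtain ⟨v, hv⟩ : ∃ v : Equiv.Perm (Fin (2 * m + 1 + 1)), v = Fin.revPerm * w * Fin.revPerm := ⟨_, rfl⟩
  rw [← hv]
  have h : (Fin.rev d = w (Fin.rev a)) ↔ (a = v⁻¹ d) := by
    rw [Equiv.Perm.eq_inv_iff_eq, hv]
    simp only [Equiv.Perm.mul_apply, Fin.revPerm_apply]
    constructor
    · intro h1
      rw [← h1, Fin.rev_rev]
    · intro h1
      rw [← h1, Fin.rev_rev]
  simp only [pm, Matrix.of_apply]
  by_cases h' : Fin.rev d = w (Fin.rev a)
  · rw [if_pos h', if_pos (h.1 h')]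
    ring
  · rw [if_neg h', if_neg (fun hh => h' (h.2 hh))]
    ring

theorem cell_sym {m : ℕ} {x : Mat (2 * m + 1)} {w : Equiv.Perm (Fin (2 * m + 1 + 1))} (h : Cell x w)
    (hx : x * KK m * x.transpose = KK m) : SymP w := by
  obtain ⟨b, c, hb, hc, hxe⟩ := h
  obtain ⟨bi, hbi, hbi1, -⟩ := ut_inv (ut_ps hb)
  obtain ⟨ci, hci, hci1, -⟩ := ut_inv (ut_ps hc)
  obtain ⟨v, hv⟩ : ∃ v : Equiv.Perm (Fin (2 * m + 1 + 1)), v = Fin.revPerm * w * Fin.revPerm := ⟨_, rfl⟩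
  have h1 : Ps x = Ps c * (Dg m * pm v⁻¹ * Dg m) * Ps b := by
    rw [hxe, ps_mul, ps_mul, ps_pm, ← hv]
    simp only [mul_assoc]
  have h2 : Ps x * (bi * Dg m * pm v * (Dg m * ci)) = 1 := by
    have hpm : pm v⁻¹ * pm v = 1 := by rw [← pm_mul, inv_mul_cancel, pm_one]
    calc Ps x * (bi * Dg m * pm v * (Dg m * ci))
        = Ps c * Dg m * pm v⁻¹ * Dg m * (Ps b * bi) * Dg m * pm v * Dg m * ci := by
          rw [h1]; simp only [mul_assoc]
      _ = Ps c * Dg m * pm v⁻¹ * (Dg m * Dg m) * pm v * Dg m * ci := by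
          rw [hbi1, mul_one]; simp only [mul_assoc]
      _ = Ps c * Dg m * (pm v⁻¹ * pm v) * Dg m * ci := by
          rw [dg_dg, mul_one]; simp only [mul_assoc]
      _ = Ps c * (Dg m * Dg m) * ci := by
          rw [hpm, mul_one]; simp only [mul_assoc]
      _ = 1 := by rw [dg_dg, mul_one, hci1]
  have h3 : x = bi * Dg m * pm v * (Dg m * ci) := by
    calc x = x * (Ps x * (bi * Dg m * pm v * (Dg m * ci))) := by rw [h2, mul_one]
      _ = bi * Dg m * pm v * (Dg m * ci) := by rw [← mul_assoc, mul_ps hx, one_mul]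
  have h4 : Cell x v := ⟨bi * Dg m, Dg m * ci, ut_mul hbi (ut_dg m), ut_mul (ut_dg m) hci, h3⟩
  have h5 : w = v := cell_unique ⟨b, c, hb, hc, hxe⟩ h4
  intro a
  have h6 : w (Fin.rev a) = v (Fin.rev a) := by rw [← h5]
  rw [h6, hv]
  simp only [Equiv.Perm.mul_apply, Fin.revPerm_apply, Fin.rev_rev]

end Pool.Agent.Lib.MP_f146a9_al.DV
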